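import Pool.Agent.H94.LH.Stmts

/-!
# LH: FSP (few triples for each support)
-/

set_option autoImplicit false

namespace Pool.LH

open Finset Pool.Agent.H98.ABCR Pool.SHA

namespace FSP78

lemma kl_nonneg (K : Finset ℕ) (n : ℕ) : 0 ≤ kl K n :=
  Finset.sum_nonneg fun q _ => mul_nonneg (Nat.cast_nonneg _) (Real.log_natCast_nonneg q)

lemma kl_mono (K K' : Finset ℕ) (n : ℕ) (h : K ⊆ K') : kl K n ≤ kl K' n :=
  Finset.sum_le_sum_of_subset_of_nonneg h fun q _ _ =>
    mul_nonneg (Nat.cast_nonneg _) (Real.log_natCast_nonneg q)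

lemma kl_full (K : Finset ℕ) (n : ℕ) (hn : n ≠ 0) (hK : n.primeFactors ⊆ K) :
    kl K n = Real.log n := by
  have h1 : kl K n = kl n.primeFactors n := by
    unfold kl
    symm
    refine Finset.sum_subset hK fun q _ hq => ?_
    have : n.factorization q = 0 := by
      rw [← Finsupp.notMem_support_iff]
      simpa using hq
    rw [this]
    simp
  rw [h1]
  unfold kl
  have h2 : (n : ℝ) = ∏ q ∈ n.primeFactors, (q : ℝ) ^ n.factorization q := by
    have := Nat.prod_factorization_pow_eq_self hn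
    conv_lhs => rw [← this]
    rw [Finsupp.prod]
    push_cast
    rfl
  conv_rhs => rw [h2]
  rw [Real.log_prod]
  · refine Finset.sum_congr rfl fun q _ => ?_
    rw [Real.log_pow]
  · intro q hq
    have : q.Prime := Nat.prime_of_mem_primeFactors hq
    have : (0 : ℝ) < q := by exact_mod_cast this.pos
    positivity

lemma prod3 (v : ℕ × ℕ) (i j k : Fin 3) (h1 : i ≠ j) (h2 : i ≠ k) (h3 : j ≠ k) :
    nn v = coord v i * coord v j * coord v k := by
  have e : nn v = coord v 0 * coord v 1 * coord v 2 := rfl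
  rw [e]
  have hi : ∀ x : Fin 3, x = 0 ∨ x = 1 ∨ x = 2 := by decide
  rcases hi i with rfl | rfl | rfl <;> rcases hi j with rfl | rfl | rfl <;>
    rcases hi k with rfl | rfl | rfl <;>
    first
      | exact absurd rfl h1
      | exact absurd rfl h2
      | exact absurd rfl h3
      | ring

lemma sum3 (f : Fin 3 → ℝ) (i j k : Fin 3) (h1 : i ≠ j) (h2 : i ≠ k) (h3 : j ≠ k) :
    ∑ s, f s = f i + f j + f k := by
  rw [Fin.sum_univ_three]
  fin_cases i <;> fin_cases j <;> fin_cases k <;> simp_all <;> ring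

lemma coord_pos (v : ℕ × ℕ) (hv : IsTri v) (s : Fin 3) : 0 < coord v s := by
  obtain ⟨ha, hb, _⟩ := hv
  fin_cases s
  · exact ha
  · exact hb
  · exact Nat.add_pos_left ha _

/-- the logarithms of the coordinates -/
lemma logs (v : ℕ × ℕ) (hv : IsTri v) :
    0 ≤ Real.log (v.1 : ℝ) ∧ 0 ≤ Real.log (v.2 : ℝ) ∧
    Real.log (v.1 : ℝ) ≤ hh v ∧ Real.log (v.2 : ℝ) ≤ hh v ∧
    Real.log ((min v.1 v.2 : ℕ) : ℝ) ≤ Real.log (v.1 : ℝ) ∧
    Real.log ((min v.1 v.2 : ℕ) : ℝ) ≤ Real.log (v.2 : ℝ) ∧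
    (hh v - Real.log 2 ≤ Real.log (v.1 : ℝ) ∧
        Real.log ((min v.1 v.2 : ℕ) : ℝ) = Real.log (v.2 : ℝ) ∨
      hh v - Real.log 2 ≤ Real.log (v.2 : ℝ) ∧
        Real.log ((min v.1 v.2 : ℕ) : ℝ) = Real.log (v.1 : ℝ)) := by
  obtain ⟨ha, hb, -⟩ := hv
  have ha' : (1 : ℝ) ≤ v.1 := by exact_mod_cast ha
  have hb' : (1 : ℝ) ≤ v.2 := by exact_mod_cast hb
  have hm : 0 < min v.1 v.2 := lt_min ha hb
  have hm' : (0 : ℝ) < ((min v.1 v.2 : ℕ) : ℝ) := by exact_mod_cast hm
  have hh1 : ∀ x : ℝ, 1 ≤ x → (v.1 : ℝ) + v.2 ≤ 2 * x → hh v - Real.log 2 ≤ Real.log x := by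
    intro x hx hxx
    have h1 : hh v ≤ Real.log (2 * x) := by
      unfold hh
      refine Real.log_le_log (by push_cast; linarith) (by push_cast; exact hxx)
    rw [Real.log_mul (by norm_num) (by linarith)] at h1
    linarith
  refine ⟨Real.log_nonneg ha', Real.log_nonneg hb', ?_, ?_, ?_, ?_, ?_⟩
  · unfold hh
    exact Real.log_le_log (by linarith) (by push_cast; linarith)
  · unfold hh
    exact Real.log_le_log (by linarith) (by push_cast; linarith)
  · exact Real.log_le_log hm' (by exact_mod_cast min_le_left v.1 v.2)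
  · exact Real.log_le_log hm' (by exact_mod_cast min_le_right v.1 v.2)
  · rcases le_total v.1 v.2 with h | h
    · right
      have h' : (v.1 : ℝ) ≤ v.2 := by exact_mod_cast h
      refine ⟨hh1 _ hb' (by linarith), ?_⟩
      rw [min_eq_left h]
    · left
      have h' : (v.2 : ℝ) ≤ v.1 := by exact_mod_cast h
      refine ⟨hh1 _ ha' (by linarith), ?_⟩
      rw [min_eq_right h]

/-- the two full coordinates and the real place have mass at least `2` -/
lemma two_full (v : ℕ × ℕ) (hv : IsTri v) (s1 s2 i : Fin 3) (h1 : s1 ≠ s2) (h2 : s1 ≠ i)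
    (h3 : s2 ≠ i) : 2 * hh v - Real.log 2 ≤ Real.log (coord v s1) + Real.log (coord v s2) +
      (hh v - Real.log ((min v.1 v.2 : ℕ) : ℝ)) := by
  obtain ⟨l1, l2, l3, l4, l5, l6, l7⟩ := logs v hv
  have hl2 : 0 < Real.log 2 := Real.log_pos (by norm_num)
  have c0 : Real.log (coord v 0) = Real.log (v.1 : ℝ) := rfl
  have c1 : Real.log (coord v 1) = Real.log (v.2 : ℝ) := rfl
  have c2 : Real.log (coord v 2) = hh v := rfl
  have key : Real.log (coord v s1) + Real.log (coord v s2) =
      Real.log (v.1 : ℝ) + Real.log (v.2 : ℝ) + hh v - Real.log (coord v i) := by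
    have h := sum3 (fun s => Real.log (coord v s)) s1 s2 i h1 h2 h3
    have h' := Fin.sum_univ_three (fun s => Real.log (coord v s))
    simp only [c0, c1, c2] at h'
    linarith
  rw [key]
  fin_cases i
  · simp only [Fin.mk_zero] at *
    rw [c0]
    linarith
  · simp only [Fin.mk_one] at *
    rw [c1]
    linarith
  · simp only [Fin.reduceFinMk] at *
    rw [c2]
    rcases l7 with ⟨h, h'⟩ | ⟨h, h'⟩ <;> linarith

/-- the small coordinate adds to the mass of the real place -/
lemma two_small (v : ℕ × ℕ) (hv : IsTri v) (s1 s2 i : Fin 3) (h1 : s1 ≠ s2) (h2 : s1 ≠ i)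
    (h3 : s2 ≠ i) (δ : ℝ) (hd : 1 ≤ δ * hh v)
    (hs : Real.log (coord v i) ≤ (1 - δ) * hh v) :
    2 * hh v + δ * hh v - Real.log 2 ≤ Real.log (coord v s1) + Real.log (coord v s2) +
      (hh v - Real.log ((min v.1 v.2 : ℕ) : ℝ)) := by
  obtain ⟨l1, l2, l3, l4, l5, l6, l7⟩ := logs v hv
  have hl2 : Real.log 2 < 1 := by
    have := Real.log_two_lt_d9
    linarith
  have c0 : Real.log (coord v 0) = Real.log (v.1 : ℝ) := rfl
  have c1 : Real.log (coord v 1) = Real.log (v.2 : ℝ) := rfl
  have c2 : Real.log (coord v 2) = hh v := rfl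
  have key : Real.log (coord v s1) + Real.log (coord v s2) =
      Real.log (v.1 : ℝ) + Real.log (v.2 : ℝ) + hh v - Real.log (coord v i) := by
    have h := sum3 (fun s => Real.log (coord v s)) s1 s2 i h1 h2 h3
    have h' := Fin.sum_univ_three (fun s => Real.log (coord v s))
    simp only [c0, c1, c2] at h'
    linarith
  rw [key]
  have hs' : Real.log (coord v i) ≤ hh v - δ * hh v := by linarith
  fin_cases i
  · simp only [Fin.mk_zero] at *
    rw [c0] at hs' ⊢
    rcases l7 with ⟨h, h'⟩ | ⟨h, h'⟩ <;> linarith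
  · simp only [Fin.mk_one] at *
    rw [c1] at hs' ⊢
    rcases l7 with ⟨h, h'⟩ | ⟨h, h'⟩ <;> linarith
  · simp only [Fin.reduceFinMk] at *
    rw [c2] at hs'
    linarith

end FSP78

open FSP78 in
/-- **FSP**. -/
theorem fsp_thm (hG : Pool.ABY.S_GPD) : S_FSP := by
  classical
  intro δ hδ hδ1
  obtain ⟨C, hC, hmain⟩ := hG (δ / 4) (by positivity) (by linarith)
  refine ⟨2 * C, 4 / δ, by linarith, ?_, ?_⟩
  · rw [le_div_iff₀ hδ]
    linarith
  intro h0 k K S i s1 s2 F hh0 h12 h1i h2i hK hF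
  have hh0' : 4 ≤ δ * h0 := by
    rw [div_le_iff₀ hδ] at hh0
    linarith
  have h0pos : 0 < h0 := by
    by_contra h
    push Not at h
    nlinarith
  have hl2 : Real.log 2 < 1 := by
    have := Real.log_two_lt_d9
    linarith
  have hS0 : ∀ v ∈ F, ∀ q ∈ S, q.Prime := by
    intro v hv q hq
    obtain ⟨-, -, -, -, hS, -⟩ := hF v hv
    rw [← hS] at hq
    exact Nat.prime_of_mem_primeFactors hq
  have hSn : ∀ v ∈ F, S ⊆ (nn v).primeFactors := by
    intro v hv
    obtain ⟨ht, -, -, -, hS, -⟩ := hF v hv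
    rw [← hS]
    have hne : nn v ≠ 0 := by
      rw [prod3 v s1 s2 i h12 h1i h2i]
      exact Nat.mul_ne_zero (Nat.mul_ne_zero (coord_pos v ht _).ne' (coord_pos v ht _).ne')
        (coord_pos v ht _).ne'
    refine Nat.primeFactors_mono ?_ hne
    rw [prod3 v s1 s2 i h12 h1i h2i]
    exact Dvd.intro _ rfl
  have hfull : ∀ v ∈ F, ∀ K' : Finset ℕ, S ⊆ K' →
      mass K' v = Real.log (coord v s1) + Real.log (coord v s2) + kl K' (coord v i) +
        (hh v - Real.log ((min v.1 v.2 : ℕ) : ℝ)) := by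
    intro v hv K' hK'
    obtain ⟨ht, -, -, -, hS, -⟩ := hF v hv
    have e1 := (coord_pos v ht s1).ne'
    have e2 := (coord_pos v ht s2).ne'
    have hm : (coord v s1 * coord v s2).primeFactors =
        (coord v s1).primeFactors ∪ (coord v s2).primeFactors := Nat.primeFactors_mul e1 e2
    unfold mass
    rw [sum3 (fun s => kl K' (coord v s)) s1 s2 i h12 h1i h2i]
    have g1 : (coord v s1).primeFactors ⊆ K' := by
      refine Finset.Subset.trans ?_ hK'
      rw [← hS, hm]
      exact Finset.subset_union_left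
    have g2 : (coord v s2).primeFactors ⊆ K' := by
      refine Finset.Subset.trans ?_ hK'
      rw [← hS, hm]
      exact Finset.subset_union_right
    rw [kl_full K' _ e1 g1, kl_full K' _ e2 g2]
  set F1 := F.filter (fun v => K ⊆ (coord v i).primeFactors ∧ δ * h0 ≤ kl K (coord v i)) with hF1
  set F2 := F.filter (fun v => Real.log (coord v i) ≤ (1 - δ) * hh v) with hF2
  have hcov : F ⊆ F1 ∪ F2 := by
    intro v hv
    obtain ⟨-, -, -, -, -, h⟩ := hF v hv
    rw [Finset.mem_union, hF1, hF2, Finset.mem_filter, Finset.mem_filter]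
    rcases h with h | h
    · exact Or.inl ⟨hv, h⟩
    · exact Or.inr ⟨hv, h⟩
  have hb1 : (F1.card : ℝ) ≤ C ^ (k + 1) := by
    rcases F1.eq_empty_or_nonempty with he | ⟨v0, hv0⟩
    · rw [he]
      simp only [Finset.card_empty, Nat.cast_zero]
      positivity
    · have hv0' := hv0
      rw [hF1, Finset.mem_filter] at hv0'
      obtain ⟨hvF, hKi, -⟩ := hv0'
      obtain ⟨ht0, -, -, hom, -, -⟩ := hF v0 hvF
      have hcard : (K ∪ S).card ≤ k := by
        refine le_trans ?_ hom
        unfold om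
        refine Finset.card_le_card (Finset.union_subset ?_ (hSn v0 hvF))
        refine hKi.trans ?_
        have hne : nn v0 ≠ 0 := by
          rw [prod3 v0 s1 s2 i h12 h1i h2i]
          exact Nat.mul_ne_zero (Nat.mul_ne_zero (coord_pos v0 ht0 _).ne'
            (coord_pos v0 ht0 _).ne') (coord_pos v0 ht0 _).ne'
        refine Nat.primeFactors_mono ?_ hne
        rw [prod3 v0 s1 s2 i h12 h1i h2i]
        exact Dvd.intro_left _ rfl
      have hg := hmain h0 (K ∪ S) F1 h0pos ?_ ?_
      · refine hg.trans (pow_le_pow_right₀ hC (by omega))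
      · intro q hq
        rcases Finset.mem_union.1 hq with h | h
        · exact hK q h
        · exact hS0 v0 hvF q h
      · intro v hv
        rw [hF1, Finset.mem_filter] at hv
        obtain ⟨hvF', -, hkl⟩ := hv
        obtain ⟨ht, ha, hb, -, -, -⟩ := hF v hvF'
        refine ⟨ht, ha, hb, ?_⟩
        rw [hfull v hvF' (K ∪ S) Finset.subset_union_right]
        have t1 := two_full v ht s1 s2 i h12 h1i h2i
        have t2 := kl_mono K (K ∪ S) (coord v i) Finset.subset_union_left
        have t3 : δ * hh v ≤ δ * (2 * h0) := mul_le_mul_of_nonneg_left hb hδ.le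
        have t4 : δ * h0 ≤ δ * hh v := mul_le_mul_of_nonneg_left ha hδ.le
        linarith
  have hb2 : (F2.card : ℝ) ≤ C ^ (k + 1) := by
    rcases F2.eq_empty_or_nonempty with he | ⟨v0, hv0⟩
    · rw [he]
      simp only [Finset.card_empty, Nat.cast_zero]
      positivity
    · have hv0' := hv0
      rw [hF2, Finset.mem_filter] at hv0'
      obtain ⟨hvF, -⟩ := hv0'
      obtain ⟨ht0, -, -, hom, -, -⟩ := hF v0 hvF
      have hcard : S.card ≤ k := by
        refine le_trans ?_ hom
        unfold om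
        exact Finset.card_le_card (hSn v0 hvF)
      have hg := hmain h0 S F2 h0pos (hS0 v0 hvF) ?_
      · refine hg.trans (pow_le_pow_right₀ hC (by omega))
      · intro v hv
        rw [hF2, Finset.mem_filter] at hv
        obtain ⟨hvF', hsm⟩ := hv
        obtain ⟨ht, ha, hb, -, -, -⟩ := hF v hvF'
        refine ⟨ht, ha, hb, ?_⟩
        rw [hfull v hvF' S (Finset.Subset.refl _)]
        have t4 : δ * h0 ≤ δ * hh v := mul_le_mul_of_nonneg_left ha hδ.le
        have t1 := two_small v ht s1 s2 i h12 h1i h2i δ (by linarith) hsm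
        have t2 := kl_nonneg S (coord v i)
        linarith
  have hcardF : (F.card : ℝ) ≤ F1.card + F2.card := by
    have := (Finset.card_le_card hcov).trans (Finset.card_union_le F1 F2)
    exact_mod_cast this
  have hpow : 2 * C ^ (k + 1) ≤ (2 * C) ^ (k + 1) := by
    rw [mul_pow]
    refine mul_le_mul_of_nonneg_right ?_ (by positivity)
    calc (2 : ℝ) = 2 ^ 1 := by norm_num
      _ ≤ 2 ^ (k + 1) := pow_le_pow_right₀ (by norm_num) (by omega)
  linarith

end Pool.LH
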